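import Pool.Agent.Y840.PT.Alm
import Pool.Agent.Q212.Sing

/-!
# Narrow progressions of almost prime tuples, for every tuple and in every dense subset

Let `k ≥ 1`. There are `κ, c > 0` with the following properties. Let `D` be any set of `k` positive integers with
`𝔖({0} ∪ D) ≠ 0`, and let `Pts κ x y ({0} ∪ D)` be the set of the integers `n` in the interval `(y, y + x]` for which `n` and
all `n + d`, `d ∈ D`, are free of prime factors `≤ x ^ κ` (so they have a bounded number of prime factors, if `y` and `D` are at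
most a power of `x`; all `n > x ^ κ` for which `n` and all `n + d` are prime are among them).

(1) If `D ⊆ [1, x]`, for example `D ⊆ [2, (log x) ^ (k + 1)]` as in the question, and `x ≥ x₀`, then this set has at least
`c 𝔖({0} ∪ D) x / (log x) ^ (k + 1)` elements; `y` is arbitrary.

(2) For all `m` and `ρ > 0` there are `B` and `x₀` such that for all `x ≥ x₀`, all `y`, ALL `D` (of any size) and ALL subsets
`U` of `Pts κ x y ({0} ∪ D)` of relative density at least `ρ`: `U` contains an arithmetic progression of length `m` with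
difference at most `(log x) ^ B`.

The numbers `κ`, `c`, `B`, `x₀` do not depend on `D`.

Proof. Szemerédi's theorem relative to sifted sets, with narrow progressions, and the lower bound sieve, both uniform in the
sifted classes (the starting library, `Pool.Agent.Y843.HS.fin` and `Pool.Agent.Y840.PT.low`). Here they are applied to the forms
`n + t`, and the product of the sieve is compared with the singular series, uniformly in `D`.
-/

set_option autoImplicit false

open Finset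

namespace Pool.Agent.Results.MP_485179_nt.AlmostPrimeProgressions

open Classical in
/-- the integers `y < n ≤ y + x` for which no `n + t`, `t ∈ T`, has a prime factor `≤ x ^ κ` -/
noncomputable def Pts (κ : ℝ) (x y : ℕ) (T : Finset ℕ) : Finset ℕ :=
  (Ioc y (y + x)).filter (fun n => ∀ t ∈ T, ∀ p : ℕ, p.Prime → p ∣ n + t → (x : ℝ) ^ κ < p)

/-- the number of residue classes modulo `p` occupied by `T` -/
def nu (T : Finset ℕ) (p : ℕ) : ℕ := (T.image (· % p)).card

/-- the factor at `p` of the singular series -/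
noncomputable def loc (T : Finset ℕ) (p : ℕ) : ℝ :=
  (1 - (nu T p : ℝ) / p) / (1 - 1 / (p : ℝ)) ^ T.card

/-- the singular series of `T` -/
noncomputable def 𝔖 (T : Finset ℕ) : ℝ := ∏' p : Nat.Primes, loc T p

/-- `U` contains `m` consecutive terms of an arithmetic progression with difference between `1`
and `D` -/
def HasAP (m : ℕ) (D : ℝ) (U : Finset ℕ) : Prop :=
  ∃ a d : ℕ, 1 ≤ d ∧ (d : ℝ) ≤ D ∧ ∀ j < m, a + j * d ∈ U

/-- the forms -/
def TT (T : Finset ℕ) : Finset (ℕ × ℕ) := T.image (fun t => (1, t))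

lemma mem_TT {T : Finset ℕ} {L : ℕ × ℕ} : L ∈ TT T ↔ ∃ t ∈ T, (1, t) = L := by
  unfold TT
  rw [mem_image]

lemma card_TT (T : Finset ℕ) : (TT T).card = T.card := by
  unfold TT
  apply card_image_of_injective
  intro a b h
  exact (Prod.ext_iff.1 h).2

open Pool.Agent.W218.MU (w Prim)

lemma prim_TT (T : Finset ℕ) : Prim (TT T) := by
  intro L hL
  obtain ⟨t, _, rfl⟩ := mem_TT.1 hL
  exact ⟨le_rfl, Nat.coprime_one_left t⟩

/-- the zeros modulo `p` -/
lemma w_TT (T : Finset ℕ) {p : ℕ} (hp : p.Prime) : w (TT T) p = nu T p := by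
  unfold w nu
  have hp0 := hp.pos
  have hdv : ∀ n : ℕ, (∃ L ∈ TT T, p ∣ L.1 * n + L.2) ↔ ∃ t ∈ T, p ∣ n + t := by
    intro n
    constructor
    · rintro ⟨L, hL, h⟩
      obtain ⟨t, ht, rfl⟩ := mem_TT.1 hL
      exact ⟨t, ht, by simpa using h⟩
    · rintro ⟨t, ht, h⟩
      exact ⟨(1, t), mem_TT.2 ⟨t, ht, rfl⟩, by simpa using h⟩
  simp_rw [hdv]
  apply card_bij (fun n _ => (p - n % p) % p)
  · intro n hn
    rw [mem_filter, mem_range] at hn
    obtain ⟨hn1, t, ht, h⟩ := hn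
    rw [mem_image]
    refine ⟨t, ht, ?_⟩
    rw [Nat.mod_eq_of_lt hn1]
    have h1 : (n + t) % p = 0 := Nat.mod_eq_zero_of_dvd h
    have h2 : (n + t % p) % p = 0 := by rw [Nat.add_mod_mod]; exact h1
    have h3 := Nat.mod_lt t hp0
    rcases Nat.eq_zero_or_pos n with h0 | h0
    · subst h0
      rw [zero_add, Nat.mod_mod] at h2
      rw [Nat.sub_zero, Nat.mod_self]
      exact h2
    · have h4 : n + t % p = p := by
        have h5 : p ∣ n + t % p := Nat.dvd_of_mod_eq_zero h2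
        obtain ⟨c, hc⟩ := h5
        have h6 : n + t % p < p * 2 := by omega
        rw [hc] at h6
        have h7 : c < 2 := Nat.lt_of_mul_lt_mul_left h6
        have h8 : 0 < c := by
          rcases Nat.eq_zero_or_pos c with h9 | h9
          · subst h9; omega
          · exact h9
        have h9 : c = 1 := by omega
        rw [hc, h9, mul_one]
      have h5 : (p - n) % p = p - n := Nat.mod_eq_of_lt (by omega)
      rw [h5]
      omega
  · intro n hn n' hn' h
    rw [mem_filter, mem_range] at hn hn'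
    rw [Nat.mod_eq_of_lt hn.1, Nat.mod_eq_of_lt hn'.1] at h
    rcases Nat.eq_zero_or_pos n with h0 | h0 <;> rcases Nat.eq_zero_or_pos n' with h0' | h0'
    · omega
    · subst h0
      rw [Nat.sub_zero, Nat.mod_self, Nat.mod_eq_of_lt (by omega : p - n' < p)] at h
      omega
    · subst h0'
      rw [Nat.sub_zero, Nat.mod_self, Nat.mod_eq_of_lt (by omega : p - n < p)] at h
      omega
    · rw [Nat.mod_eq_of_lt (by omega : p - n' < p), Nat.mod_eq_of_lt (by omega : p - n < p)] at h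
      omega
  · intro s hs
    rw [mem_image] at hs
    obtain ⟨t, ht, rfl⟩ := hs
    have h3 := Nat.mod_lt t hp0
    rcases Nat.eq_zero_or_pos (t % p) with h0 | h0
    · refine ⟨0, ?_, ?_⟩
      · rw [mem_filter, mem_range]
        refine ⟨hp0, t, ht, ?_⟩
        rw [zero_add]
        exact Nat.dvd_of_mod_eq_zero h0
      · simp [h0]
    · refine ⟨p - t % p, ?_, ?_⟩
      · rw [mem_filter, mem_range]
        refine ⟨by omega, t, ht, ?_⟩
        have h4 : p - t % p + t = p + p * (t / p) := by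
          have := Nat.mod_add_div t p
          omega
        rw [h4]
        exact Nat.dvd_add (dvd_refl p) (Nat.dvd_mul_right _ _)
      · rw [Nat.mod_eq_of_lt (by omega : p - t % p < p)]
        have h5 : p - (p - t % p) = t % p := by omega
        rw [h5, Nat.mod_mod]

/-- a nonzero singular series means that there is no local obstruction -/
lemma adm_of_ne {T : Finset ℕ} (h : 𝔖 T ≠ 0) (p : ℕ) (hp : p.Prime) : nu T p < p := by
  have hle : nu T p ≤ p := by
    unfold nu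
    have h1 : T.image (· % p) ⊆ range p := by
      intro a ha
      rw [mem_image] at ha
      obtain ⟨t, _, rfl⟩ := ha
      exact mem_range.2 (Nat.mod_lt _ hp.pos)
    simpa using card_le_card h1
  refine lt_of_le_of_ne hle fun h1 => h ?_
  have h2 : loc T p = 0 := by
    unfold loc
    have hp0 : (p : ℝ) ≠ 0 := by exact_mod_cast hp.ne_zero
    rw [h1, div_self hp0, sub_self, zero_div]
  have h3 := Pool.Agent.H387R2.Uni.CT_hasProd T
  have h4 : 𝔖 T = Pool.Agent.H387R2.Uni.CT T := rfl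
  rw [h4]
  refine tendsto_nhds_unique h3 ?_
  apply tendsto_const_nhds.congr'
  filter_upwards [Filter.eventually_ge_atTop ({⟨p, hp⟩} : Finset Nat.Primes)] with s hs
  symm
  exact prod_eq_zero (hs (mem_singleton_self _)) h2

lemma mf {p : ℕ → Prop} {dp : DecidablePred p} {s : Finset ℕ} {a : ℕ}
    (h : a ∈ @Finset.filter ℕ p dp s) : a ∈ s ∧ p a := (@Finset.mem_filter ℕ p dp s a).mp h

lemma mf' {p : ℕ → Prop} {dp : DecidablePred p} {s : Finset ℕ} {a : ℕ}
    (h : a ∈ s ∧ p a) : a ∈ @Finset.filter ℕ p dp s := (@Finset.mem_filter ℕ p dp s a).mpr h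

/-- the product of the sieve is the product over the primes up to `y` -/
lemma VV_eq (T : Finset ℕ) (R : ℕ) :
    Pool.Agent.Y843.HS.VV (Pool.Agent.Y840.PT.ZT (TT T)) 0 R = Pool.Agent.Q212.Sing.VT T R := by
  unfold Pool.Agent.Y843.HS.VV Pool.Agent.Y843.HS.Pr Pool.Agent.Q212.Sing.VT
  apply prod_congr
  · congr 1
  · intro p hp
    have hp' := (mem_filter.1 hp).2
    rw [Pool.Agent.Y840.PT.card_ZT, w_TT T hp']
    rfl

/-- the singular series is bounded by the product over the primes up to a power of the size of the shifts -/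
lemma lower (κ : ℝ) (hκ : 0 < κ) (l : ℕ) : ∃ c : ℝ, 0 < c ∧ ∃ x₀ : ℕ, ∀ x : ℕ, x₀ ≤ x → ∀ T : Finset ℕ,
    T.card = l → (∀ t ∈ T, t ≤ x) →
    c * 𝔖 T / Real.log x ^ l ≤ Pool.Agent.Q212.Sing.VT T ⌊(x : ℝ) ^ κ⌋₊ := by
  obtain ⟨c₁, c₂, h1, h2, h⟩ := Pool.Agent.H318R2.Cr.cz_bounds
  obtain ⟨x₁, hx₁⟩ := Filter.eventually_atTop.1 (Pool.Agent.Y840.PT.floor_pow hκ (⌈4 / κ⌉₊ + 2))
  refine ⟨c₁ ^ l / κ ^ l * (Real.exp 1 ^ (l * l))⁻¹, by positivity, x₁ + 3, fun x hx T hT hTx => ?_⟩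
  obtain ⟨h3, h4, h5⟩ := hx₁ x (by omega)
  obtain ⟨R, hR⟩ : ∃ R : ℕ, R = ⌊(x : ℝ) ^ κ⌋₊ := ⟨_, rfl⟩
  rw [← hR] at h3 h4 h5 ⊢
  have hx1 : (1 : ℝ) < x := by exact_mod_cast (by omega : 1 < x)
  have hlx : 0 < Real.log x := Real.log_pos hx1
  have hR0 : (0 : ℝ) < R := by exact_mod_cast (by omega : 0 < R)
  have hlR : 0 < Real.log R := Real.log_pos (by exact_mod_cast (by omega : 1 < R))
  have hRx : Real.log R ≤ κ * Real.log x := by
    rw [← Real.log_rpow (by linarith)]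
    apply Real.log_le_log hR0
    rw [hR]
    exact Nat.floor_le (by positivity)
  have hceil : 4 / κ ≤ (⌈4 / κ⌉₊ : ℝ) := Nat.le_ceil _
  have hRκ : 4 / κ ≤ R := by
    have h6 : ((⌈4 / κ⌉₊ + 2 : ℕ) : ℝ) ≤ R := by exact_mod_cast h3
    push_cast at h6
    linarith
  have hCT : 𝔖 T ≤ Real.exp 1 ^ (l * l) * Pool.Agent.H386R2.HL.sy (Pool.Agent.H387R2.Uni.en T) R := by
    have h6 := Pool.Agent.H387R2.Uni.CT_le T R (K := Real.exp 1) (Real.one_le_exp zero_le_one) (M := x) hTx (by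
      intro n hn hnx
      refine (Pool.Agent.H387R2.Uni.tt_le R n h4 hn).trans ?_
      apply Real.exp_le_exp.2
      rw [div_le_one (by positivity)]
      have h7 : Real.log n ≤ Real.log x := Real.log_le_log (by exact_mod_cast hn) (by exact_mod_cast hnx)
      have h8 : Real.log x ≤ 2 / κ * Real.log R := by
        rw [div_mul_eq_mul_div, le_div_iff₀ hκ]
        linarith
      have h9 : 4 / κ * Real.log R ≤ R * Real.log R := mul_le_mul_of_nonneg_right hRκ hlR.le
      have h10 : 4 / κ * Real.log R = 2 * (2 / κ * Real.log R) := by ring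
      linarith)
    rw [← Pool.Agent.H387R2.Uni.sy_en] at h6
    have h7 : (Real.exp 1 ^ (T.card * T.card) : ℝ) = Real.exp 1 ^ (l * l) := by rw [hT]
    rw [h7] at h6
    exact h6
  have hV := Pool.Agent.H318R2.Cr.V_pos R
  obtain ⟨h6, -⟩ := h R h4
  have hV2 : c₁ / (κ * Real.log x) ≤ Pool.Agent.H318R2.Cr.V R := by
    rw [div_le_iff₀ (by positivity)]
    exact h6.trans (mul_le_mul_of_nonneg_left hRx hV.le)
  have hV3 : c₁ ^ l / κ ^ l / Real.log x ^ l ≤ Pool.Agent.H318R2.Cr.V R ^ l := by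
    have h7 := pow_le_pow_left₀ (by positivity) hV2 l
    rw [div_pow, mul_pow] at h7
    rw [div_div]
    exact h7
  have hS0 := Pool.Agent.H386R2.HL.sy_nonneg (Pool.Agent.H387R2.Uni.en T) R
  rw [Pool.Agent.Q212.Sing.VT_eq]
  obtain ⟨S, hS⟩ : ∃ S, S = Pool.Agent.H386R2.HL.sy (Pool.Agent.H387R2.Uni.en T) R := ⟨_, rfl⟩
  rw [← hS] at hS0 hCT ⊢
  rw [hT]
  have he : 0 < Real.exp 1 ^ (l * l) := by positivity
  have hS1 : (Real.exp 1 ^ (l * l))⁻¹ * 𝔖 T ≤ S := by
    rw [inv_mul_le_iff₀ he]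
    exact hCT
  calc c₁ ^ l / κ ^ l * (Real.exp 1 ^ (l * l))⁻¹ * 𝔖 T / Real.log x ^ l =
      ((Real.exp 1 ^ (l * l))⁻¹ * 𝔖 T) * (c₁ ^ l / κ ^ l / Real.log x ^ l) := by ring
    _ ≤ S * (c₁ ^ l / κ ^ l / Real.log x ^ l) := mul_le_mul_of_nonneg_right hS1 (by positivity)
    _ ≤ S * Pool.Agent.H318R2.Cr.V R ^ l := mul_le_mul_of_nonneg_left hV3 hS0

/-- **Narrow progressions of almost prime tuples.** -/
theorem result (k : ℕ) :
    (∀ T : Finset ℕ, HasProd (fun p : Nat.Primes => loc T p) (𝔖 T)) ∧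
    ∃ κ c : ℝ, 0 < κ ∧ 0 < c ∧
      (∃ x₀ : ℕ, ∀ x y : ℕ, x₀ ≤ x → ∀ D : Finset ℕ, D.card = k → (∀ d ∈ D, 1 ≤ d ∧ d ≤ x) → 𝔖 ({0} ∪ D) ≠ 0 →
        c * 𝔖 ({0} ∪ D) * x / Real.log x ^ (k + 1) ≤ (Pts κ x y ({0} ∪ D)).card) ∧
      ∀ (m : ℕ) (ρ : ℝ), 0 < ρ → ∃ B x₀ : ℕ, ∀ x y : ℕ, x₀ ≤ x → ∀ D : Finset ℕ, D.card = k → 0 ∉ D →
        𝔖 ({0} ∪ D) ≠ 0 → ∀ U ⊆ Pts κ x y ({0} ∪ D), ρ * ((Pts κ x y ({0} ∪ D)).card : ℝ) ≤ U.card →
          HasAP m (Real.log x ^ B) U := by
  classical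
  refine ⟨fun T => Pool.Agent.H387R2.Uni.CT_hasProd T, ?_⟩
  obtain ⟨κ, c, hκ, hc, X₀, hlow⟩ := Pool.Agent.Y840.PT.low (k + 1)
  obtain ⟨c', hc', x₁, hx₁⟩ := lower κ hκ (k + 1)
  have hcard : ∀ D : Finset ℕ, D.card = k → 0 ∉ D → ({0} ∪ D).card = k + 1 := by
    intro D hD h0
    rw [card_union_of_disjoint (by simpa using h0), hD, card_singleton, add_comm]
  have hlow' : ∀ x y : ℕ, X₀ ≤ x → ∀ D : Finset ℕ, D.card = k → 0 ∉ D → 𝔖 ({0} ∪ D) ≠ 0 →
      c * x * Pool.Agent.Y843.HS.VV (Pool.Agent.Y840.PT.ZT (TT ({0} ∪ D))) 0 ⌊(x : ℝ) ^ κ⌋₊ ≤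
        (Pts κ x y ({0} ∪ D)).card := by
    intro x y hx D hD h0 hS
    have h1 := hlow x y hx (TT ({0} ∪ D)) (prim_TT _) (by rw [card_TT, hcard D hD h0])
      (fun p hp => by rw [w_TT _ hp]; exact adm_of_ne hS p hp)
    refine h1.trans (Nat.cast_le.2 ?_)
    unfold Pts
    apply card_le_card
    intro n hn
    obtain ⟨hn1, hn2⟩ := mf hn
    refine mf' ⟨hn1, fun t ht p hp hd => ?_⟩
    by_contra hcon
    exact hn2 (1, t) (mem_TT.2 ⟨t, ht, rfl⟩) p hp (not_lt.1 hcon) (by simpa using hd)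
  refine ⟨κ, c * c', hκ, by positivity, ⟨max X₀ x₁, ?_⟩, ?_⟩
  · intro x y hx D hD hDx hS
    have h0 : 0 ∉ D := fun h0 => by have := (hDx 0 h0).1; omega
    have h1 := hlow' x y ((le_max_left _ _).trans hx) D hD h0 hS
    rw [VV_eq] at h1
    have h2 := hx₁ x ((le_max_right _ _).trans hx) ({0} ∪ D) (hcard D hD h0) (by
      intro t ht
      rw [mem_union, mem_singleton] at ht
      rcases ht with rfl | ht
      · exact Nat.zero_le _
      · exact (hDx t ht).2)
    calc c * c' * 𝔖 ({0} ∪ D) * x / Real.log x ^ (k + 1) =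
        c * x * (c' * 𝔖 ({0} ∪ D) / Real.log x ^ (k + 1)) := by ring
      _ ≤ _ := mul_le_mul_of_nonneg_left h2 (by positivity)
      _ ≤ _ := h1
  · intro m ρ hρ
    obtain ⟨B, X₂, hB⟩ := Pool.Agent.Y843.HS.fin m (k + 1) κ (ρ * c) hκ (by positivity)
    refine ⟨B, max X₀ X₂, fun x y hx D hD h0 hS U hU hUc => ?_⟩
    apply hB x y ((le_max_right _ _).trans hx) (Pool.Agent.Y840.PT.ZT (TT ({0} ∪ D)))
    · intro p hp _
      refine ⟨?_, ?_, fun c hcz => mem_range.1 (mem_filter.1 hcz).1⟩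
      · rw [Pool.Agent.Y840.PT.card_ZT]
        have := Pool.Agent.W218.MU.w_le (prim_TT ({0} ∪ D)) hp
        rw [card_TT, hcard D hD h0] at this
        exact this
      · rw [Pool.Agent.Y840.PT.card_ZT, w_TT _ hp]
        exact adm_of_ne hS p hp
    · intro n hn
      exact (mf (hU hn)).1
    · intro n hn p hp hpX hmem
      obtain ⟨L, hL, hd⟩ := (Pool.Agent.Y840.PT.mem_ZT _ hp.pos n).1 hmem
      obtain ⟨t, ht, rfl⟩ := mem_TT.1 hL
      have h3 := (mf (hU hn)).2 t ht p hp (by simpa using hd)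
      linarith
    · have h1 := hlow' x y ((le_max_left _ _).trans hx) D hD h0 hS
      calc ρ * c * x * Pool.Agent.Y843.HS.VV (Pool.Agent.Y840.PT.ZT (TT ({0} ∪ D))) 0 ⌊(x : ℝ) ^ κ⌋₊ =
          ρ * (c * x * Pool.Agent.Y843.HS.VV (Pool.Agent.Y840.PT.ZT (TT ({0} ∪ D))) 0 ⌊(x : ℝ) ^ κ⌋₊) := by ring
        _ ≤ ρ * ((Pts κ x y ({0} ∪ D)).card : ℝ) := mul_le_mul_of_nonneg_left h1 hρ.le
        _ ≤ _ := hUc

end Pool.Agent.Results.MP_485179_nt.AlmostPrimeProgressions
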