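import Mathlib
import Pool.Agent.TH891.BD.B7

/-!
# The upper half of the Hardy-Littlewood conjecture for short shifts implies the other half on average

For every `k ≥ 1` and every set `A` of at least `λ log N` integers in `[0, (log N)^C]`, the total
deviation of the numbers of prime `(k+1)`-tuples with a pattern `T ⊆ A` from their Hardy-Littlewood
predictions is at most twice the total upper deviation plus `k²/(2λ) + o(1)` times the total
prediction.  So if all admissible patterns in `A` satisfy the upper half of the conjecture,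
`π ≤ (1 + δ) × prediction`, then almost all of them (weighted with the singular series) satisfy the
asymptotic formula, in every set `A` of more than `λ log N` shifts, as `δ → 0` and `λ → ∞`.

The proof uses the universal lower bound of the starting files (helper891), a second moment argument
for the primes in the translates of `A`.
-/

set_option autoImplicit false

namespace Pool.Agent.Results.MP_485179_nt.OneSidedHardyLittlewood

open Finset Filter Topology Pool.Agent.H387R2

/-- the number of residue classes modulo `p` occupied by `T` -/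
def nu (T : Finset ℕ) (p : ℕ) : ℕ := (T.image (· % p)).card

/-- `T` is admissible: it misses a residue class modulo every prime -/
def IsAdmissible (T : Finset ℕ) : Prop := ∀ p : ℕ, p.Prime → nu T p < p

/-- the factor at `p` of the singular series -/
noncomputable def localFactor (T : Finset ℕ) (p : ℕ) : ℝ :=
  (1 - (nu T p : ℝ) / p) / (1 - 1 / (p : ℝ)) ^ T.card

/-- the singular series of `T` -/
noncomputable def 𝔖 (T : Finset ℕ) : ℝ := ∏' p : Nat.Primes, localFactor T p

open Classical in
/-- the number of primes `p ≤ N` such that all `p + d`, `d` in `T - min T`, are prime; in the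
notation of the problem `π_{k+1}(N, {0} ∪ D)` for the pattern `{0} ∪ D = T - min T` -/
noncomputable def tupleCount (N : ℕ) (T : Finset ℕ) : ℕ :=
  ((Icc 1 N).filter (fun p => ∀ t ∈ T, (p + (t - sInf (T : Set ℕ))).Prime)).card

/-- the Hardy-Littlewood prediction `𝔖(T) N / (log N)^|T|` -/
noncomputable def prediction (N : ℕ) (T : Finset ℕ) : ℝ := 𝔖 T * (N / Real.log N ^ T.card)

open Classical in
/-- the admissible `(k+1)`-element subsets of `A` -/
noncomputable def patterns (k : ℕ) (A : Finset ℕ) : Finset (Finset ℕ) :=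
  (A.powersetCard (k + 1)).filter IsAdmissible

lemma adm_iff (T : Finset ℕ) : Uni.Adm T ↔ IsAdmissible T := Iff.rfl

lemma CT_eq (T : Finset ℕ) : Uni.CT T = 𝔖 T := rfl

lemma S_nonneg (T : Finset ℕ) : 0 ≤ 𝔖 T := Uni.CT_nonneg T

lemma piT_eq {T : Finset ℕ} (hT : IsAdmissible T) (N : ℕ) : Uni.piT T N = tupleCount N T := by
  unfold Uni.piT tupleCount
  rw [if_pos ((adm_iff T).2 hT)]

lemma piT_zero {T : Finset ℕ} (hT : ¬ IsAdmissible T) (N : ℕ) : Uni.piT T N = 0 := by
  unfold Uni.piT
  rw [if_neg (fun h => hT ((adm_iff T).1 h))]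

lemma prod_ge (lam : ℝ) (k : ℕ) (hlam : 0 < lam) (h : ∀ i < k, (i + 1 / 2 : ℝ) / lam ≤ 1) :
    1 - (k : ℝ) ^ 2 / (2 * lam) ≤ ∏ i ∈ range k, (1 - (i + 1 / 2 : ℝ) / lam) := by
  have h01 : ∀ m : ℕ, m ≤ k → 0 ≤ ∏ i ∈ range m, (1 - (i + 1 / 2 : ℝ) / lam) ∧
      ∏ i ∈ range m, (1 - (i + 1 / 2 : ℝ) / lam) ≤ 1 := by
    intro m hm
    refine ⟨prod_nonneg fun i hi => ?_, prod_le_one (fun i hi => ?_) fun i hi => ?_⟩
    · have := h i (by have := mem_range.1 hi; omega)
      linarith
    · have := h i (by have := mem_range.1 hi; omega)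
      linarith
    · have : 0 ≤ (i + 1 / 2 : ℝ) / lam := by positivity
      linarith
  have key : ∀ m : ℕ, m ≤ k → 1 - (m : ℝ) ^ 2 / (2 * lam) ≤
      ∏ i ∈ range m, (1 - (i + 1 / 2 : ℝ) / lam) := by
    intro m
    induction m with
    | zero => intro _; simp
    | succ m ih =>
      intro hm
      rw [prod_range_succ]
      have h1 := ih (by omega)
      obtain ⟨h2, h3⟩ := h01 m (by omega)
      have h4 : 0 ≤ (m + 1 / 2 : ℝ) / lam := by positivity
      have h5 : (((m + 1 : ℕ) : ℝ)) ^ 2 / (2 * lam) = (m : ℝ) ^ 2 / (2 * lam) + (m + 1 / 2 : ℝ) / lam := by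
        push_cast
        field_simp
        ring
      rw [h5]
      nlinarith [mul_le_mul_of_nonneg_right h3 h4]
  exact key k le_rfl

lemma li_low (m N : ℕ) (hN : 2 ≤ N) :
    (N - 2 : ℝ) / Real.log N ^ m ≤ ∫ t in (2:ℝ)..N, 1 / Real.log t ^ m := by
  have hN2 : (2 : ℝ) ≤ N := by exact_mod_cast hN
  have h1 : ∫ t in (2:ℝ)..N, 1 / Real.log N ^ m = (N - 2 : ℝ) / Real.log N ^ m := by
    rw [intervalIntegral.integral_const, smul_eq_mul]
    ring
  rw [← h1]
  apply intervalIntegral.integral_mono_on hN2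
  · exact intervalIntegrable_const
  · apply ContinuousOn.intervalIntegrable
    rw [Set.uIcc_of_le hN2]
    apply ContinuousOn.div continuousOn_const
    · apply ContinuousOn.pow
      apply Real.continuousOn_log.mono
      intro x hx
      have : (2:ℝ) ≤ x := hx.1
      simp only [Set.mem_compl_iff, Set.mem_singleton_iff]
      linarith
    · intro x hx
      have : (2:ℝ) ≤ x := hx.1
      exact pow_ne_zero _ (Real.log_pos (by linarith)).ne'
  · intro t ht
    have h2 : 0 < Real.log t := Real.log_pos (by linarith [ht.1])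
    apply one_div_le_one_div_of_le (pow_pos h2 _)
    exact pow_le_pow_left₀ h2.le (Real.log_le_log (by linarith [ht.1]) ht.2) _

/-- **One-sided Hardy-Littlewood.** -/
theorem result :
    (∀ T : Finset ℕ, HasProd (fun p : Nat.Primes => localFactor T p) (𝔖 T) ∧
      (IsAdmissible T → 0 < 𝔖 T)) ∧
    ∀ (k q : ℕ), 1 ≤ k → 1 ≤ q → ∀ lam C τ : ℝ, 0 < lam → (k : ℝ) ^ 2 / (2 * lam) < τ →
      ∃ N₀ : ℕ, ∀ N : ℕ, N₀ ≤ N → ∀ (c : ℕ) (A : Finset ℕ), (∀ a ∈ A, a ≡ c [MOD q]) →
        (∀ a ∈ A, (a : ℝ) ≤ Real.log N ^ C) →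
        lam * ((Nat.totient q : ℝ) / q) * Real.log N ≤ A.card →
        (∑ T ∈ patterns k A, |(tupleCount N T : ℝ) - prediction N T| ≤
          2 * ∑ T ∈ patterns k A, max ((tupleCount N T : ℝ) - prediction N T) 0 +
            τ * ∑ T ∈ patterns k A, prediction N T) ∧
        (∀ δ η : ℝ, 0 ≤ δ → 0 < η →
          (∀ T ∈ patterns k A, (tupleCount N T : ℝ) ≤ (1 + δ) * prediction N T) →
          ∑ T ∈ (patterns k A).filter
            (fun T => η * prediction N T < |(tupleCount N T : ℝ) - prediction N T|), 𝔖 T ≤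
            (2 * δ + τ) / η * ∑ T ∈ patterns k A, 𝔖 T) := by
  classical
  refine ⟨fun T => ⟨Uni.CT_hasProd T, fun hT => ?_⟩, ?_⟩
  · rw [← CT_eq, ← Uni.CT_en]
    apply Pool.Agent.H386R2.HL.singularSeries_pos (Uni.en_inj T)
    intro p hp
    rw [Uni.nu_en]
    exact hT p hp
  intro k q hk hq lam C τ hlam hτ
  have hk1 : (1 : ℝ) ≤ k := by exact_mod_cast hk
  have hτ0 : 0 < τ := lt_of_le_of_lt (by positivity) hτ
  -- the total deficiency
  have main : ∃ N₀ : ℕ, ∀ N : ℕ, N₀ ≤ N → ∀ (c : ℕ) (A : Finset ℕ), (∀ a ∈ A, a ≡ c [MOD q]) →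
        (∀ a ∈ A, (a : ℝ) ≤ Real.log N ^ C) →
        lam * ((Nat.totient q : ℝ) / q) * Real.log N ≤ A.card →
        -(τ * ∑ T ∈ patterns k A, prediction N T) ≤
          ∑ T ∈ patterns k A, ((tupleCount N T : ℝ) - prediction N T) := by
    rcases le_or_gt 1 τ with h1 | h1
    · refine ⟨0, fun N _ c A _ _ _ => ?_⟩
      have hp : ∀ T, 0 ≤ prediction N T := by
        intro T
        unfold prediction
        have := S_nonneg T
        have h2 : 0 ≤ Real.log (N : ℝ) := Real.log_natCast_nonneg N
        positivity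
      rw [mul_sum, ← sum_neg_distrib]
      refine sum_le_sum fun T _ => ?_
      have h2 : (0 : ℝ) ≤ tupleCount N T := Nat.cast_nonneg _
      nlinarith [hp T]
    · have hk2 : (k : ℝ) ^ 2 / (2 * lam) < 1 := hτ.trans h1
      have hk3 : (k : ℝ) ^ 2 < 2 * lam := by
        rwa [div_lt_one (by positivity)] at hk2
      have hlk : (k : ℝ) - 1 / 2 < lam := by nlinarith [sq_nonneg ((k : ℝ) - 1)]
      have hprod := prod_ge lam k hlam (fun i hi => by
        rw [div_le_one hlam]
        have : (i : ℝ) + 1 ≤ k := by exact_mod_cast hi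
        linarith)
      obtain ⟨θ, hθ⟩ : ∃ θ : ℝ, θ = ((1 - τ) + (1 - (k : ℝ) ^ 2 / (2 * lam))) / 2 := ⟨_, rfl⟩
      have hθ0 : 0 < θ := by rw [hθ]; linarith
      have hθ1 : θ < ∏ i ∈ range k, (1 - (i + 1 / 2 : ℝ) / lam) := by
        rw [hθ]
        linarith
      have hθ2 : 1 - τ < θ := by rw [hθ]; linarith
      obtain ⟨N₁, hN₁⟩ := Pool.Agent.TH891.BD.universal2 k q hk hq lam θ C hlk hθ0 hθ1
      obtain ⟨N₂, hN₂⟩ := exists_nat_ge (2 * θ / (θ - (1 - τ)))
      refine ⟨max N₁ (max N₂ 4), fun N hN c A hAc hA hcard => ?_⟩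
      have hNN1 : N₁ ≤ N := (le_max_left _ _).trans hN
      have hNN2 : N₂ ≤ N := (le_max_left _ _).trans ((le_max_right _ _).trans hN)
      have hN4 : 4 ≤ N := (le_max_right _ _).trans ((le_max_right _ _).trans hN)
      have hN4' : (4 : ℝ) ≤ N := by exact_mod_cast hN4
      have h2 := hN₁ N hNN1 c A hAc hA hcard
      have hlog : 0 < Real.log N := Real.log_pos (by linarith)
      have h3 : 2 * θ / (θ - (1 - τ)) ≤ N := hN₂.trans (by exact_mod_cast hNN2)
      rw [div_le_iff₀ (by linarith)] at h3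
      have h4 : (1 - τ) * (N / Real.log N ^ (k + 1)) ≤
          θ * ∫ t in (2:ℝ)..N, 1 / Real.log t ^ (k + 1) := by
        have h5 := li_low (k + 1) N (by omega)
        have h6 : (1 - τ) * (N / Real.log N ^ (k + 1)) ≤ θ * ((N - 2 : ℝ) / Real.log N ^ (k + 1)) := by
          rw [← mul_div_assoc, ← mul_div_assoc]
          apply div_le_div_of_nonneg_right _ (by positivity)
          nlinarith
        exact h6.trans (mul_le_mul_of_nonneg_left h5 hθ0.le)
      have h5 : ∑ T ∈ A.powersetCard (k + 1), (Uni.piT T N : ℝ) =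
          ∑ T ∈ patterns k A, (tupleCount N T : ℝ) := by
        unfold patterns
        rw [sum_filter]
        refine sum_congr rfl fun T _ => ?_
        split_ifs with h
        · rw [piT_eq h]
        · rw [piT_zero h, Nat.cast_zero]
      have h6 : ∑ T ∈ patterns k A, 𝔖 T ≤ ∑ T ∈ A.powersetCard (k + 1), Uni.CT T :=
        sum_le_sum_of_subset_of_nonneg (filter_subset _ _) fun T _ _ => S_nonneg T
      have h7 : ∑ T ∈ patterns k A, prediction N T =
          (∑ T ∈ patterns k A, 𝔖 T) * (N / Real.log N ^ (k + 1)) := by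
        rw [sum_mul]
        refine sum_congr rfl fun T hT => ?_
        unfold prediction
        rw [(mem_powersetCard.1 (mem_filter.1 hT).1).2]
      have h8 : (1 - τ) * ∑ T ∈ patterns k A, prediction N T ≤
          ∑ T ∈ patterns k A, (tupleCount N T : ℝ) := by
        rw [← h5]
        refine le_trans ?_ h2
        rw [h7]
        have h9 : 0 ≤ ∑ T ∈ patterns k A, 𝔖 T := sum_nonneg fun T _ => S_nonneg T
        have h10 : 0 ≤ (1 - τ) * ((N : ℝ) / Real.log N ^ (k + 1)) := by
          have : 0 < 1 - τ := by linarith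
          positivity
        calc (1 - τ) * ((∑ T ∈ patterns k A, 𝔖 T) * (N / Real.log N ^ (k + 1))) =
            (∑ T ∈ patterns k A, 𝔖 T) * ((1 - τ) * (N / Real.log N ^ (k + 1))) := by ring
          _ ≤ (∑ T ∈ A.powersetCard (k + 1), Uni.CT T) *
              (θ * ∫ t in (2:ℝ)..N, 1 / Real.log t ^ (k + 1)) :=
            mul_le_mul h6 h4 h10 (h9.trans h6)
          _ = _ := by ring
      rw [sum_sub_distrib]
      linarith
  obtain ⟨N₀, hN₀⟩ := main
  refine ⟨max N₀ 2, fun N hN c A hAc hA hcard => ?_⟩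
  have h1 := hN₀ N ((le_max_left _ _).trans hN) c A hAc hA hcard
  have hN2 : 2 ≤ N := (le_max_right _ _).trans hN
  have hN2' : (2 : ℝ) ≤ N := by exact_mod_cast hN2
  have hlog : 0 < Real.log N := Real.log_pos (by linarith)
  have hL1 : ∑ T ∈ patterns k A, |(tupleCount N T : ℝ) - prediction N T| ≤
          2 * ∑ T ∈ patterns k A, max ((tupleCount N T : ℝ) - prediction N T) 0 +
            τ * ∑ T ∈ patterns k A, prediction N T := by
    have h2 : ∑ T ∈ patterns k A, |(tupleCount N T : ℝ) - prediction N T| =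
        2 * ∑ T ∈ patterns k A, max ((tupleCount N T : ℝ) - prediction N T) 0 -
          ∑ T ∈ patterns k A, ((tupleCount N T : ℝ) - prediction N T) := by
      rw [mul_sum, ← sum_sub_distrib]
      refine sum_congr rfl fun T _ => ?_
      rcases le_total 0 ((tupleCount N T : ℝ) - prediction N T) with h | h
      · rw [abs_of_nonneg h, max_eq_left h]
        ring
      · rw [abs_of_nonpos h, max_eq_right h]
        ring
    linarith
  refine ⟨hL1, fun δ η hδ hη hup => ?_⟩
  have hM : 0 < (N : ℝ) / Real.log N ^ (k + 1) := by positivity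
  have hpred : ∀ T ∈ patterns k A, prediction N T = 𝔖 T * ((N : ℝ) / Real.log N ^ (k + 1)) := by
    intro T hT
    unfold prediction
    rw [(mem_powersetCard.1 (mem_filter.1 hT).1).2]
  have hP : ∑ T ∈ patterns k A, prediction N T =
      (∑ T ∈ patterns k A, 𝔖 T) * (N / Real.log N ^ (k + 1)) := by
    rw [sum_mul]
    exact sum_congr rfl hpred
  have h3 : ∑ T ∈ patterns k A, max ((tupleCount N T : ℝ) - prediction N T) 0 ≤
      δ * ∑ T ∈ patterns k A, prediction N T := by
    rw [mul_sum]
    refine sum_le_sum fun T hT => ?_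
    have h4 := hup T hT
    have h5 : 0 ≤ prediction N T := by
      rw [hpred T hT]
      exact mul_nonneg (S_nonneg T) hM.le
    apply max_le
    · linarith
    · positivity
  have h4 : η * ((∑ T ∈ (patterns k A).filter
      (fun T => η * prediction N T < |(tupleCount N T : ℝ) - prediction N T|), 𝔖 T) *
        ((N : ℝ) / Real.log N ^ (k + 1))) ≤
      ∑ T ∈ patterns k A, |(tupleCount N T : ℝ) - prediction N T| := by
    rw [sum_mul, mul_sum]
    refine le_trans (sum_le_sum (g := fun T => |(tupleCount N T : ℝ) - prediction N T|)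
      fun T hT => ?_) (sum_le_sum_of_subset_of_nonneg (filter_subset _ _) fun T _ _ => abs_nonneg _)
    rw [mem_filter] at hT
    rw [← hpred T hT.1]
    exact hT.2.le
  have h5 : η * ((∑ T ∈ (patterns k A).filter
      (fun T => η * prediction N T < |(tupleCount N T : ℝ) - prediction N T|), 𝔖 T) *
        ((N : ℝ) / Real.log N ^ (k + 1))) ≤
      (2 * δ + τ) * ((∑ T ∈ patterns k A, 𝔖 T) * (N / Real.log N ^ (k + 1))) := by
    rw [← hP]
    linarith
  rw [div_mul_eq_mul_div, le_div_iff₀ hη]
  rw [← mul_assoc, ← mul_assoc] at h5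
  have h6 := le_of_mul_le_mul_right h5 hM
  linarith

end Pool.Agent.Results.MP_485179_nt.OneSidedHardyLittlewood
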