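import Pool.Agent.Y816.PD.UniP
import Pool.Agent.Q212.Sing

/-!
# Restricted digits: the expected order of magnitude, uniformly in the tuple

Let `k ≥ 1`, let `b ≥ 2` be a base and `x = b ^ K`. For every `i < K` let `A i` be an arbitrary set of digits; it is only
assumed that the number `|A 0| ⋯ |A (K - 1)|` of the choices of `K` digits is at least `exp (- c K) b ^ K`, where `c > 0`
depends on `k` only. (For example, a digit is missing everywhere and the base is large; or the digits at an arbitrary set of at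
most `c' K` of the places are prescribed.)

We consider the integers `m ≤ x` with these digits and ask, as in the problem, for uniformity in the set `D` of shifts: the sets
`D` with `k` elements in `[2, (log x) ^ (k + 1)]` of the question and even all `D ⊆ [1, x]` are allowed, with
`𝔖({0} ∪ D) ≠ 0`, and the singular series appears on both sides.

* The number of the `m` such that `m` and all `m + d`, `d ∈ D`, are prime is
  `≤ C 𝔖({0} ∪ D) |A 0| ⋯ |A (K - 1)| / (log x) ^ (k + 1)`.
* The number of the `m` such that `m` and all `m + d`, `d ∈ D`, have at most `r` prime factors, all of them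
  greater than `x ^ (1 / r)`, is `≥ κ 𝔖({0} ∪ D) |A 0| ⋯ |A (K - 1)| / (log x) ^ (k + 1)`, unless there is an obvious
  obstruction (no `a ∈ A 0` such that `a` and all `a + d` are prime to `b`).

The constants `C`, `κ` and `r` are independent of `D` and of the sets `A i`.

Proof. The theorem `uni_poly` of the starting library `Pool.Agent.Y816.PD`: a sieve, uniform in the polynomial, for the integers
with restricted digits. Here it is applied to the polynomial `∏ (X + t)`, `t ∈ {0} ∪ D`, and the product over the primes up to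
`x` is compared with the singular series, uniformly in `D`.
-/

set_option autoImplicit false

namespace Pool.Agent.Results.MP_485179_nt.RestrictedDigits

open Filter Finset

/-- The `i`-th digit of `m` in base `b` (counted from the right, beginning with `0`) belongs to `A i` for all `i < K`. -/
def HasDigits (b K : ℕ) (A : ℕ → Finset ℕ) (m : ℕ) : Prop := ∀ i < K, m / b ^ i % b ∈ A i

/-- The number of the choices of `K` digits in the sets `A i`. -/
def choices (K : ℕ) (A : ℕ → Finset ℕ) : ℕ := ∏ i ∈ range K, (A i).card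

/-- `m` has at most `r` prime factors (counted with multiplicity), and all of them are larger than `x ^ (1 / r)`. -/
def AlmostPrime (x r m : ℕ) : Prop :=
  (∀ p : ℕ, p.Prime → p ∣ m → x < p ^ r) ∧ m.primeFactorsList.length ≤ r

open Classical in
/-- The number of the `1 ≤ m ≤ x` with digits in the `A i` for which all `m + t`, `t ∈ T`, have the property `P`. -/
noncomputable def count (x b K : ℕ) (A : ℕ → Finset ℕ) (T : Finset ℕ) (P : ℕ → Prop) : ℕ :=
  ((Icc 1 x).filter fun m => HasDigits b K A m ∧ ∀ t ∈ T, P (m + t)).card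

/-- the number of residue classes modulo `p` occupied by `T` -/
def nu (T : Finset ℕ) (p : ℕ) : ℕ := (T.image (· % p)).card

/-- the factor at `p` of the singular series -/
noncomputable def loc (T : Finset ℕ) (p : ℕ) : ℝ :=
  (1 - (nu T p : ℝ) / p) / (1 - 1 / (p : ℝ)) ^ T.card

/-- the singular series of `T` -/
noncomputable def 𝔖 (T : Finset ℕ) : ℝ := ∏' p : Nat.Primes, loc T p

lemma mf {p : ℕ → Prop} {dp : DecidablePred p} {s : Finset ℕ} {a : ℕ}
    (h : a ∈ @Finset.filter ℕ p dp s) : a ∈ s ∧ p a := (@Finset.mem_filter ℕ p dp s a).mp h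

lemma mf' {p : ℕ → Prop} {dp : DecidablePred p} {s : Finset ℕ} {a : ℕ}
    (h : a ∈ s ∧ p a) : a ∈ @Finset.filter ℕ p dp s := (@Finset.mem_filter ℕ p dp s a).mpr h

/-! ### The polynomial -/

open Polynomial in
/-- the polynomial of the tuple -/
noncomputable def PT (T : Finset ℕ) : ℤ[X] := ∏ t ∈ T, (X + C (t : ℤ))

open Polynomial in
lemma PT_eval (T : Finset ℕ) (n : ℕ) : (PT T).eval (n : ℤ) = ∏ t ∈ T, ((n : ℤ) + t) := by
  unfold PT
  rw [eval_prod]
  simp

open Polynomial in
lemma PT_deg (T : Finset ℕ) : (PT T).natDegree ≤ T.card := by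
  unfold PT
  refine (natDegree_prod_le _ _).trans ?_
  calc ∑ t ∈ T, (X + C (t : ℤ)).natDegree ≤ ∑ _t ∈ T, 1 := by
        apply sum_le_sum
        intro t _
        rw [natDegree_X_add_C]
    _ = T.card := by simp

lemma dvd_PT {T : Finset ℕ} {p n : ℕ} (hp : p.Prime) :
    (p : ℤ) ∣ (PT T).eval (n : ℤ) ↔ ∃ t ∈ T, p ∣ n + t := by
  rw [PT_eval, (Nat.prime_iff_prime_int.1 hp).dvd_finsetProd_iff]
  constructor
  · rintro ⟨t, ht, h⟩
    exact ⟨t, ht, by exact_mod_cast h⟩
  · rintro ⟨t, ht, h⟩
    exact ⟨t, ht, by exact_mod_cast h⟩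

lemma PT_natAbs (T : Finset ℕ) (n : ℕ) : ((PT T).eval (n : ℤ)).natAbs = ∏ t ∈ T, (n + t) := by
  rw [PT_eval]
  have : (∏ t ∈ T, ((n : ℤ) + t)) = ((∏ t ∈ T, (n + t) : ℕ) : ℤ) := by push_cast; rfl
  rw [this, Int.natAbs_natCast]

/-- the zeros of the polynomial modulo `p` -/
lemma zeros (T : Finset ℕ) {p : ℕ} (hp : p.Prime) :
    ((range p).filter (fun n : ℕ => (p : ℤ) ∣ (PT T).eval (n : ℤ))).card = nu T p := by
  unfold nu
  have hp0 := hp.pos
  apply card_bij (fun n _ => (p - n % p) % p)
  · intro n hn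
    rw [mem_filter, mem_range, dvd_PT hp] at hn
    obtain ⟨hn1, t, ht, h⟩ := hn
    rw [mem_image]
    refine ⟨t, ht, ?_⟩
    rw [Nat.mod_eq_of_lt hn1]
    have h1 : (n + t) % p = 0 := Nat.mod_eq_zero_of_dvd h
    have h2 : (n + t % p) % p = 0 := by rw [Nat.add_mod_mod]; exact h1
    have h3 := Nat.mod_lt t hp0
    rcases Nat.eq_zero_or_pos n with h0 | h0
    · subst h0
      rw [zero_add, Nat.mod_mod] at h2
      rw [Nat.sub_zero, Nat.mod_self]
      exact h2
    · have h4 : n + t % p = p := by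
        have h5 : p ∣ n + t % p := Nat.dvd_of_mod_eq_zero h2
        obtain ⟨c, hc⟩ := h5
        have h6 : n + t % p < p * 2 := by omega
        rw [hc] at h6
        have h7 : c < 2 := Nat.lt_of_mul_lt_mul_left h6
        have h8 : 0 < c := by
          rcases Nat.eq_zero_or_pos c with h9 | h9
          · subst h9; omega
          · exact h9
        have h9 : c = 1 := by omega
        rw [hc, h9, mul_one]
      have h5 : (p - n) % p = p - n := Nat.mod_eq_of_lt (by omega)
      rw [h5]
      omega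
  · intro n hn n' hn' h
    rw [mem_filter, mem_range] at hn hn'
    rw [Nat.mod_eq_of_lt hn.1, Nat.mod_eq_of_lt hn'.1] at h
    rcases Nat.eq_zero_or_pos n with h0 | h0 <;> rcases Nat.eq_zero_or_pos n' with h0' | h0'
    · omega
    · subst h0
      rw [Nat.sub_zero, Nat.mod_self, Nat.mod_eq_of_lt (by omega : p - n' < p)] at h
      omega
    · subst h0'
      rw [Nat.sub_zero, Nat.mod_self, Nat.mod_eq_of_lt (by omega : p - n < p)] at h
      omega
    · rw [Nat.mod_eq_of_lt (by omega : p - n' < p), Nat.mod_eq_of_lt (by omega : p - n < p)] at h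
      omega
  · intro s hs
    rw [mem_image] at hs
    obtain ⟨t, ht, rfl⟩ := hs
    have h3 := Nat.mod_lt t hp0
    rcases Nat.eq_zero_or_pos (t % p) with h0 | h0
    · refine ⟨0, ?_, ?_⟩
      · rw [mem_filter, mem_range, dvd_PT hp]
        refine ⟨hp0, t, ht, ?_⟩
        rw [zero_add]
        exact Nat.dvd_of_mod_eq_zero h0
      · simp [h0]
    · refine ⟨p - t % p, ?_, ?_⟩
      · rw [mem_filter, mem_range, dvd_PT hp]
        refine ⟨by omega, t, ht, ?_⟩
        have h4 : p - t % p + t = p + p * (t / p) := by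
          have := Nat.mod_add_div t p
          omega
        rw [h4]
        exact Nat.dvd_add (dvd_refl p) (Nat.dvd_mul_right _ _)
      · rw [Nat.mod_eq_of_lt (by omega : p - t % p < p)]
        have h5 : p - (p - t % p) = t % p := by omega
        rw [h5, Nat.mod_mod]

open Pool.Agent.Y816.PD in
lemma VP_eq_VT (T : Finset ℕ) (x : ℕ) : VP (PT T) x = Pool.Agent.Q212.Sing.VT T x := by
  unfold VP Pool.Agent.Q212.Sing.VT
  apply prod_congr rfl
  intro p hp
  rw [mem_filter] at hp
  congr 3
  have h := zeros T hp.2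
  have h2 : nu T p = Pool.Agent.H387R2.Uni.nuT T p := rfl
  rw [← h2, ← h]

/-- a nonzero singular series means that there is no local obstruction -/
lemma adm_of_ne {T : Finset ℕ} (h : 𝔖 T ≠ 0) (p : ℕ) (hp : p.Prime) : ∃ n : ℕ, ¬ (p : ℤ) ∣ (PT T).eval (n : ℤ) := by
  by_contra hcon
  push Not at hcon
  apply h
  have h1 : nu T p = p := by
    rw [← zeros T hp, filter_true_of_mem (fun n _ => hcon n), card_range]
  have h2 : loc T p = 0 := by
    unfold loc
    have hp0 : (p : ℝ) ≠ 0 := by exact_mod_cast hp.ne_zero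
    rw [h1, div_self hp0, sub_self, zero_div]
  have h3 := Pool.Agent.H387R2.Uni.CT_hasProd T
  have h4 : 𝔖 T = Pool.Agent.H387R2.Uni.CT T := rfl
  rw [h4]
  refine tendsto_nhds_unique h3 ?_
  apply tendsto_const_nhds.congr'
  filter_upwards [Filter.eventually_ge_atTop ({⟨p, hp⟩} : Finset Nat.Primes)] with s hs
  symm
  exact prod_eq_zero (hs (mem_singleton_self _)) h2

/-- **Restricted digits, uniformly in the tuple.** -/
theorem result (k : ℕ) :
    (∀ T : Finset ℕ, HasProd (fun p : Nat.Primes => loc T p) (𝔖 T)) ∧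
    ∃ c : ℝ, 0 < c ∧ ∃ r₀ : ℕ, 2 ≤ r₀ ∧ ∀ r : ℕ, r₀ ≤ r → ∀ b : ℕ, 2 ≤ b → ∃ κ C : ℝ, 0 < κ ∧ 0 < C ∧
      ∀ᶠ K : ℕ in atTop, ∀ x : ℕ, x = b ^ K → ∀ D : Finset ℕ, D.card = k → (∀ d ∈ D, 1 ≤ d ∧ d ≤ x) →
        𝔖 ({0} ∪ D) ≠ 0 →
        ∀ A : ℕ → Finset ℕ, (∀ i < K, A i ⊆ range b) → (b : ℝ) ^ K ≤ Real.exp (c * K) * choices K A →
          ((∃ a ∈ A 0, ∀ t ∈ {0} ∪ D, (a + t).Coprime b) →
            κ * 𝔖 ({0} ∪ D) * choices K A / Real.log x ^ (k + 1) ≤ count x b K A ({0} ∪ D) (AlmostPrime x r)) ∧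
          (count x b K A ({0} ∪ D) Nat.Prime : ℝ) ≤ C * 𝔖 ({0} ∪ D) * choices K A / Real.log x ^ (k + 1) := by
  classical
  refine ⟨fun T => Pool.Agent.H387R2.Uni.CT_hasProd T, ?_⟩
  obtain ⟨c, hc, r0, hr0, h⟩ := Pool.Agent.Y816.PD.uni_poly (k + 1) (2 * (k + 1)) (by omega)
  obtain ⟨c1, C1, hc1, hC1, y0, hy0⟩ := Pool.Agent.Q212.Sing.VT_bounds (k + 1)
  refine ⟨c, hc, r0, hr0, fun r hr b hb => ?_⟩
  obtain ⟨κ, C, hκ, hC, h1⟩ := h r hr b hb
  refine ⟨κ * c1, C * C1, by positivity, by positivity, ?_⟩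
  have hbig : Tendsto (fun K : ℕ => b ^ K) atTop atTop := tendsto_pow_atTop_atTop_of_one_lt (by omega)
  filter_upwards [h1, hbig.eventually_ge_atTop y0, eventually_ge_atTop (r + 2)] with K hK hKy hKr
  intro x hx D hD hDx hS A hA hprod
  have hNA : Pool.Agent.Y816.PD.NA K A = choices K A := by
    unfold Pool.Agent.Y816.PD.NA choices
    push_cast
    rfl
  have h2K : 2 ^ K ≤ b ^ K := Nat.pow_le_pow_left hb K
  have hr2 : 2 ^ r ≤ b ^ K := (Nat.pow_le_pow_right (by norm_num) (by omega)).trans h2K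
  have hK4 : 4 ≤ b ^ K := by
    calc 4 = 2 ^ 2 := by norm_num
      _ ≤ 2 ^ K := Nat.pow_le_pow_right (by norm_num) (by omega)
      _ ≤ b ^ K := h2K
  have h0D : 0 ∉ D := fun h0 => by have := (hDx 0 h0).1; omega
  have hT : ({0} ∪ D).card = k + 1 := by
    rw [card_union_of_disjoint (by simpa using h0D), hD, card_singleton, add_comm]
  obtain ⟨T, hTd⟩ : ∃ T : Finset ℕ, T = {0} ∪ D := ⟨_, rfl⟩
  have h0T : 0 ∈ T := by rw [hTd]; simp
  rw [← hTd] at hT hS ⊢
  have hTx : ∀ t ∈ T, t ≤ b ^ K := by
    intro t ht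
    rw [hTd, mem_union, mem_singleton] at ht
    rcases ht with rfl | ht
    · omega
    · rw [← hx]; exact (hDx t ht).2
  obtain ⟨hv1, hv2⟩ := hy0 (b ^ K) hKy T hT hTx
  have hdeg : (PT T).natDegree ≤ k + 1 := by rw [← hT]; exact PT_deg T
  have hsize : ∀ n : ℕ, n < b ^ K → ((PT T).eval (n : ℤ)).natAbs ≤ b ^ (2 * (k + 1) * K) := by
    intro n hn
    rw [PT_natAbs]
    calc ∏ t ∈ T, (n + t) ≤ ∏ _t ∈ T, b ^ (2 * K) := by
          apply prod_le_prod'
          intro t ht
          have h3 := hTx t ht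
          have h4 : b ^ (2 * K) = b ^ K * b ^ K := by rw [two_mul, pow_add]
          rw [h4]
          nlinarith
      _ = b ^ (2 * (k + 1) * K) := by
          rw [prod_const, hT, ← pow_mul]
          congr 1
          ring
  obtain ⟨hlow, hup⟩ := hK (PT T) hdeg (adm_of_ne hS) hsize A hA (by rw [hNA]; exact hprod)
  rw [hNA, VP_eq_VT] at hlow hup
  have hCT : Pool.Agent.H387R2.Uni.CT T = 𝔖 T := rfl
  rw [hCT] at hv1 hv2
  have hcast : ((b ^ K : ℕ) : ℝ) = (x : ℝ) := by rw [hx]
  rw [hcast] at hv1 hv2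
  have hch : (0 : ℝ) ≤ choices K A := Nat.cast_nonneg _
  constructor
  · rintro ⟨a, ha, hab⟩
    have h3 := hlow ⟨a, ha, by
      intro p hp hpb hpd
      rw [dvd_PT hp] at hpd
      obtain ⟨t, ht, hpt⟩ := hpd
      exact Nat.not_coprime_of_dvd_of_dvd hp.one_lt hpt hpb (hab t ht)⟩
    calc κ * c1 * 𝔖 T * choices K A / Real.log x ^ (k + 1) =
        κ * choices K A * (c1 * 𝔖 T / Real.log x ^ (k + 1)) := by ring
      _ ≤ κ * choices K A * Pool.Agent.Q212.Sing.VT T (b ^ K) :=
          mul_le_mul_of_nonneg_left hv1 (by positivity)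
      _ ≤ _ := h3
      _ ≤ _ := by
          apply Nat.cast_le.2
          unfold Pool.Agent.Y816.PD.ND count
          apply card_le_card
          intro n hn
          have hn' := mf hn
          have hn1 := mem_range.1 hn'.1
          obtain ⟨hn2, hn3, hn4⟩ := hn'.2
          have hn0 : n ≠ 0 := by
            rintro rfl
            have h5 := hn3 2 Nat.prime_two ((dvd_PT Nat.prime_two).2 ⟨0, h0T, by simp⟩)
            omega
          refine mf' ⟨mem_Icc.2 ⟨by omega, by omega⟩, hn2, fun t ht => ⟨?_, ?_⟩⟩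
          · intro p hp hpd
            rw [hx]
            exact hn3 p hp ((dvd_PT hp).2 ⟨t, ht, hpd⟩)
          · refine le_trans ?_ hn4
            rw [PT_natAbs]
            refine (Nat.primeFactorsList_sublist_of_dvd (dvd_prod_of_mem (fun t => n + t) ht) ?_).length_le
            rw [prod_ne_zero_iff]
            intro s _
            omega
  · calc (count x b K A T Nat.Prime : ℝ) ≤ _ := by
          apply Nat.cast_le.2
          unfold count
          show _ ≤ Pool.Agent.Y816.PD.ND b K A {n | ∀ p : ℕ, p.Prime → (p : ℤ) ∣ (PT T).eval (n : ℤ) → n < p ^ r}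
          unfold Pool.Agent.Y816.PD.ND
          apply card_le_card
          intro n hn
          have hn' := mf hn
          obtain ⟨hn1, hn2⟩ := mem_Icc.1 hn'.1
          obtain ⟨hn3, hn4⟩ := hn'.2
          have hnp : n.Prime := by
            have := hn4 0 h0T
            simpa using this
          refine mf' ⟨mem_range.2 ?_, hn3, ?_⟩
          · have h5 : n ≠ b ^ K := by
              rintro rfl
              exact Nat.Prime.not_prime_pow (by omega) hnp
            omega
          · intro p hp hpd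
            rw [dvd_PT hp] at hpd
            obtain ⟨t, ht, hpt⟩ := hpd
            have h6 : p = n + t := (Nat.prime_dvd_prime_iff_eq hp (hn4 t ht)).1 hpt
            calc n < n ^ 2 := by nlinarith [hnp.two_le]
              _ ≤ p ^ 2 := Nat.pow_le_pow_left (by omega) 2
              _ ≤ p ^ r := Nat.pow_le_pow_right hp.pos (by omega)
      _ ≤ C * choices K A * Pool.Agent.Q212.Sing.VT T (b ^ K) := hup
      _ ≤ C * choices K A * (C1 * 𝔖 T / Real.log x ^ (k + 1)) :=
          mul_le_mul_of_nonneg_left hv2 (by positivity)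
      _ = _ := by ring

end Pool.Agent.Results.MP_485179_nt.RestrictedDigits
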