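import Mathlib
import Pool.Agent.Q248.DP.Tup
import Pool.Agent.Q248.DP.Cheb

/-!
# Tuples with shifts from arbitrary sets, in one colour class of an arbitrary set of primes

Let `P` be an arbitrary set of primes up to `x`, coloured with `r` colours in an arbitrary way, and let `A` be an arbitrary set
of non-negative integers up to a power of `log x` such that a translate of `A` contains on average `r · lam` elements of `P`,
`lam > k`. For many `(k + 1)`-element subsets `T` of `A` the number of the integers `n ≤ x` for which all `n + t`, `t ∈ T`,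
belong to `P` and have one colour is at least `θ |P| ^ (k + 1) / (r x) ^ k`, for every `θ < (1 - 1 / lam) ⋯ (1 - k / lam)`. The
singular series of these `T` add up to at least a constant times `|A| ^ (k + 1)`; if `A` is contained in an interval of length `H`,
then there are many of them.

Proof.  Convexity for the numbers of the elements of the colour classes in the translates of `A`, the uniform upper bound of the sieve
(`W218.TX.pi_upper`) and, for the last assertion, the moments of the singular series (`TH891.SG`).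
-/

set_option autoImplicit false

namespace Pool.Agent.Results.MP_485179_nt.ShiftsFromArbitrarySets

open Finset Filter Topology

/-- the number of residue classes modulo `p` occupied by `T` -/
def nu (T : Finset ℕ) (p : ℕ) : ℕ := (T.image (· % p)).card

/-- the factor at `p` of the singular series -/
noncomputable def loc (T : Finset ℕ) (p : ℕ) : ℝ :=
  (1 - (nu T p : ℝ) / p) / (1 - 1 / (p : ℝ)) ^ T.card

/-- the singular series of `T` -/
noncomputable def 𝔖 (T : Finset ℕ) : ℝ := ∏' p : Nat.Primes, loc T p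

/-- the number of the integers `0 ≤ n ≤ x` for which all `n + t`, `t ∈ T`, are elements of `P` of the same colour -/
noncomputable def occ (x : ℝ) (P : Finset ℕ) (col : ℕ → ℕ) (T : Finset ℕ) : ℕ :=
  ((range (⌊x⌋₊ + 1)).filter
    (fun n => (∀ t ∈ T, n + t ∈ P) ∧ ∀ t ∈ T, ∀ t' ∈ T, col (n + t) = col (n + t'))).card

/-- `P` consists of primes up to `x` with colours `0, …, r - 1` -/
def Coloured (x : ℝ) (P : Finset ℕ) (col : ℕ → ℕ) (r : ℕ) : Prop := ∀ p ∈ P, p.Prime ∧ (p : ℝ) ≤ x ∧ col p < r

open Classical in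
/-- the `(k + 1)`-element subsets `T` of `A` with `𝔖 T > 0` and with at least `s` such integers `n` -/
noncomputable def good (k : ℕ) (x : ℝ) (P : Finset ℕ) (col : ℕ → ℕ) (A : Finset ℕ) (s : ℝ) : Finset (Finset ℕ) :=
  (A.powersetCard (k + 1)).filter (fun T => 0 < 𝔖 T ∧ s ≤ occ x P col T)

/-- the density of `P` relative to the primes, with the weight of the colours -/
noncomputable def weight (k : ℕ) (x : ℝ) (P : Finset ℕ) (r : ℕ) : ℝ := (P.card * Real.log x / x) ^ (k + 1) / r ^ k

open Pool.Agent.H387R2 in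
/-- **Tuples with shifts from arbitrary sets.** -/
theorem result (k : ℕ) (hk : 1 ≤ k) :
    -- the product converges
    (∀ T : Finset ℕ, HasProd (fun p : Nat.Primes => loc T p) (𝔖 T)) ∧
    -- arbitrary sets of shifts
    (∃ κ : ℝ, 0 < κ ∧ ∀ C : ℝ, ∀ᶠ x : ℝ in atTop, ∀ (P : Finset ℕ) (r : ℕ) (col : ℕ → ℕ), Coloured x P col r →
      ∀ A : Finset ℕ, (∀ a ∈ A, (a : ℝ) ≤ Real.log x ^ C) → ∀ lam : ℝ, lam = A.card * P.card / (r * x) → k < lam →
        ∀ θ ε : ℝ, 0 ≤ θ → 1 / Real.log x ≤ ε → θ + ε ≤ ∏ i ∈ range k, (1 - (i + 1 : ℝ) / lam) →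
          κ * (ε * weight k x P r) * A.card ^ (k + 1) ≤
            ∑ T ∈ good k x P col A (θ * (P.card ^ (k + 1) / (r * x) ^ k)), 𝔖 T) ∧
    -- sets of shifts in an interval of length `H`
    (∀ δ : ℝ, 0 < δ → ∃ κ : ℝ, 0 < κ ∧ ∀ C : ℝ, ∀ᶠ x : ℝ in atTop, ∀ (P : Finset ℕ) (r : ℕ) (col : ℕ → ℕ),
      Coloured x P col r → ∀ (z H : ℕ) (A : Finset ℕ), A ⊆ Ico z (z + H) → (∀ a ∈ A, (a : ℝ) ≤ Real.log x ^ C) →
        ∀ lam : ℝ, lam = A.card * P.card / (r * x) → k < lam →
        ∀ θ ε : ℝ, 0 ≤ θ → 1 / Real.log x ≤ ε → θ + ε ≤ ∏ i ∈ range k, (1 - (i + 1 : ℝ) / lam) →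
          κ * (ε * weight k x P r * (A.card / H) ^ (k + 1)) ^ (1 + δ) * H ^ (k + 1) ≤
            ((good k x P col A (θ * (P.card ^ (k + 1) / (r * x) ^ k))).card : ℝ)) := by
  classical
  have hCT : ∀ T : Finset ℕ, 𝔖 T = Uni.CT T := fun T => rfl
  obtain ⟨B, hB, h⟩ := Pool.Agent.Q248.DP.mainA k hk
  have hfac : (0:ℝ) < ((k + 1).factorial : ℝ) := by exact_mod_cast (k + 1).factorial_pos
  have part1 : ∀ C : ℝ, ∀ᶠ x : ℝ in atTop, ∀ (P : Finset ℕ) (r : ℕ) (col : ℕ → ℕ), Coloured x P col r →
      ∀ A : Finset ℕ, (∀ a ∈ A, (a : ℝ) ≤ Real.log x ^ C) → ∀ lam : ℝ, lam = A.card * P.card / (r * x) → k < lam →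
        ∀ θ ε : ℝ, 0 ≤ θ → 1 / Real.log x ≤ ε → θ + ε ≤ ∏ i ∈ range k, (1 - (i + 1 : ℝ) / lam) →
          1 / ((k + 1).factorial * B) * (ε * weight k x P r) * A.card ^ (k + 1) ≤
            ∑ T ∈ good k x P col A (θ * (P.card ^ (k + 1) / (r * x) ^ k)), 𝔖 T := by
    intro C
    set E : ℝ := max (max C 1) 0 + 1 with hE
    have hE2 : 2 ≤ E := by
      have : 1 ≤ max (max C 1) 0 := le_trans (le_max_right _ _) (le_max_left _ _)
      linarith
    have tL : Tendsto (fun x : ℝ => Real.log x) atTop atTop := Real.tendsto_log_atTop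
    filter_upwards [Pool.Agent.Q248.DP.real_to_nat (max C 1) (h E), tL.eventually_ge_atTop 8] with x hx hL8
    obtain ⟨g1, g2, g3, hNx, hC, hlogd⟩ := hx
    intro P r col hP A hA lam hlam hklam θ ε hθ hε hθε
    set N : ℕ := ⌊x⌋₊ with hN
    set L := Real.log x with hL
    have hx0 : 0 < x := by linarith
    have hN0 : (0:ℝ) < N := by linarith
    have hxN : x ≤ N + 1 := (Nat.lt_floor_add_one x).le
    have hk0 : (0:ℝ) ≤ k := Nat.cast_nonneg k
    have hlam0 : 0 < lam := by linarith
    -- positivity from `lam`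
    have hne : 0 < (A.card : ℝ) * P.card / (r * x) := by rw [← hlam]; exact hlam0
    have hP0 : (0:ℝ) < P.card := by
      rcases (Nat.cast_nonneg (α := ℝ) P.card).eq_or_lt with h0 | h0
      · rw [← h0, mul_zero, zero_div] at hne; exact absurd hne (lt_irrefl _)
      · exact h0
    have hA0 : (0:ℝ) < A.card := by
      rcases (Nat.cast_nonneg (α := ℝ) A.card).eq_or_lt with h0 | h0
      · rw [← h0, zero_mul, zero_div] at hne; exact absurd hne (lt_irrefl _)
      · exact h0
    have hPne : P.Nonempty := card_pos.1 (by exact_mod_cast hP0)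
    have hr1 : 1 ≤ r := by
      obtain ⟨s, hs⟩ := hPne
      have := (hP s hs).2.2
      omega
    have hr0 : (0:ℝ) < r := by exact_mod_cast hr1
    have hLN : L / 2 ≤ Real.log N := by
      rw [div_le_div_iff₀ hx0 hN0] at hlogd
      nlinarith
    have hLN4 : 4 ≤ Real.log (N:ℝ) := by linarith
    -- the bound for the shifts
    set M : ℕ := ⌊Real.log (N:ℝ) ^ E⌋₊ with hM
    have hM1 : (M:ℝ) ≤ Real.log (N:ℝ) ^ E := Nat.floor_le (by positivity)
    have hM2 : Real.log (N:ℝ) ^ E < M + 1 := Nat.lt_floor_add_one _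
    have hLC : L ^ C ≤ L ^ (max C 1) := Real.rpow_le_rpow_of_exponent_le (by linarith) (le_max_left _ _)
    have hAM : ∀ t ∈ A, t ≤ M := fun t ht => Nat.le_floor ((hA t ht).trans (hLC.trans hC))
    have hMε : 2 / ((M : ℝ) + 1) ≤ ε := by
      refine le_trans ?_ hε
      rw [div_le_div_iff₀ (by positivity) (by linarith), one_mul]
      have i1 : Real.log (N:ℝ) ^ (2:ℝ) ≤ Real.log (N:ℝ) ^ E := Real.rpow_le_rpow_of_exponent_le (by linarith) hE2
      rw [Real.rpow_two] at i1
      nlinarith
    have hph : θ + ε ≤ Uni.ph k ((r : ℝ) * N / (A.card * P.card)) := by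
      refine hθε.trans ?_
      rw [← Uni.ph_eq k hklam]
      apply Uni.ph_anti
      have e1 : 1 / lam = r * x / (A.card * P.card) := by rw [hlam, one_div, inv_div]
      rw [e1]
      apply div_le_div_of_nonneg_right _ (by positivity)
      exact mul_le_mul_of_nonneg_left hNx hr0.le
    have hε0 : 0 < ε := lt_of_lt_of_le (by positivity) hε
    have h1 := g1 M hM1 A hAM P hPne (fun p hp => ⟨(hP p hp).1, Nat.le_floor (hP p hp).2.1⟩) r col
      (fun p hp => (hP p hp).2.2) θ ε hθ hMε hph
    set s : ℝ := θ * (P.card ^ (k + 1) / (r * x) ^ k) with hs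
    have hss : s ≤ θ * ((P.card : ℝ) ^ (k + 1) / (r ^ k * N ^ k)) := by
      rw [hs, mul_pow]
      apply mul_le_mul_of_nonneg_left _ hθ
      apply div_le_div_of_nonneg_left (by positivity) (by positivity)
      apply mul_le_mul_of_nonneg_left _ (by positivity)
      exact pow_le_pow_left₀ hN0.le hNx k
    have hsum : ∑ T ∈ Pool.Agent.Q248.DP.gA k N M A P col (θ * ((P.card : ℝ) ^ (k + 1) / (r ^ k * N ^ k))), Uni.CT T ≤
        ∑ T ∈ good k x P col A s, 𝔖 T := by
      have e1 : ∑ T ∈ Pool.Agent.Q248.DP.gA k N M A P col (θ * ((P.card : ℝ) ^ (k + 1) / (r ^ k * N ^ k))), Uni.CT T =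
          ∑ T ∈ (Pool.Agent.Q248.DP.gA k N M A P col
            (θ * ((P.card : ℝ) ^ (k + 1) / (r ^ k * N ^ k)))).filter (fun T => 0 < Uni.CT T), Uni.CT T := by
        rw [sum_filter]
        apply sum_congr rfl
        intro T _
        split_ifs with h0
        · rfl
        · exact le_antisymm (not_lt.1 h0) (Uni.CT_nonneg T)
      rw [e1]
      apply sum_le_sum_of_subset_of_nonneg
      · intro T hT
        unfold Pool.Agent.Q248.DP.gA at hT
        rw [mem_filter, mem_filter] at hT
        obtain ⟨⟨h2, h3⟩, h4⟩ := hT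
        unfold good
        rw [mem_filter]
        refine ⟨h2, h4, hss.trans (h3.trans ?_)⟩
        have : Pool.Agent.Q248.DP.mcnt P col (k + 1) (N - M) T ≤ occ x P col T := by
          unfold Pool.Agent.Q248.DP.mcnt occ
          apply card_le_card
          intro n hn
          rw [mem_filter, mem_Ioc] at hn
          rw [mem_filter, mem_range, ← hN]
          exact ⟨by omega, hn.2⟩
        exact_mod_cast this
      · intro T _ _
        exact Uni.CT_nonneg T
    have h5 := h1.trans (mul_le_mul_of_nonneg_left hsum hB.le)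
    have hw : weight k x P r ≤ ((P.card : ℝ) * Real.log N / N) ^ (k + 1) / r ^ k := by
      unfold weight
      apply div_le_div_of_nonneg_right _ (by positivity)
      apply pow_le_pow_left₀ (by positivity)
      rw [mul_div_assoc, mul_div_assoc]
      exact mul_le_mul_of_nonneg_left hlogd hP0.le
    have h6 : (A.card : ℝ) ^ (k + 1) / (k + 1).factorial * (ε * weight k x P r) ≤
        B * ∑ T ∈ good k x P col A s, 𝔖 T := by
      refine le_trans ?_ h5
      apply mul_le_mul_of_nonneg_left _ (by positivity)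
      exact mul_le_mul_of_nonneg_left hw hε0.le
    calc 1 / ((k + 1).factorial * B) * (ε * weight k x P r) * A.card ^ (k + 1)
        = ((A.card : ℝ) ^ (k + 1) / (k + 1).factorial * (ε * weight k x P r)) / B := by
          field_simp
      _ ≤ (B * ∑ T ∈ good k x P col A s, 𝔖 T) / B := div_le_div_of_nonneg_right h6 hB.le
      _ = _ := by field_simp
  refine ⟨fun T => Uni.CT_hasProd T, ⟨1 / ((k + 1).factorial * B), by positivity, part1⟩, ?_⟩
  intro δ hδ
  obtain ⟨n, hn0, hnδ⟩ : ∃ n : ℕ, 1 ≤ n ∧ 1 / (n : ℝ) ≤ δ := by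
    obtain ⟨n, hn⟩ := exists_nat_gt (1 / δ)
    have hpos : 0 < 1 / δ := by positivity
    have hn0 : (0:ℝ) < n := hpos.trans hn
    refine ⟨n, by exact_mod_cast hn0, ?_⟩
    rw [div_le_iff₀ hn0]
    rw [div_lt_iff₀ hδ] at hn
    linarith
  obtain ⟨κ, hκ, hcard⟩ := Pool.Agent.TH891.SG.card_of_weight k n hn0 hB
  refine ⟨κ * ((2 ^ (k + 1)) ^ δ)⁻¹, by positivity, fun C => ?_⟩
  filter_upwards [part1 C, Pool.Agent.Q248.DP.alpha_le, eventually_ge_atTop (3:ℝ)] with x h1 h2 h3
  intro P r col hP z H A hAz hA lam hlam hklam θ ε hθ hε hθε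
  have k1 := h1 P r col hP A hA lam hlam hklam θ ε hθ hε hθε
  have hx0 : 0 < x := by linarith
  have hlx : 0 < Real.log x := Real.log_pos (by linarith)
  have hε0 : 0 < ε := lt_of_lt_of_le (by positivity) hε
  have hk0 : (0:ℝ) ≤ k := Nat.cast_nonneg k
  have hlam0 : 0 < lam := by linarith
  have hne : 0 < (A.card : ℝ) * P.card / (r * x) := by rw [← hlam]; exact hlam0
  have hA0 : (0:ℝ) < A.card := by
    rcases (Nat.cast_nonneg (α := ℝ) A.card).eq_or_lt with h0 | h0
    · rw [← h0, zero_mul, zero_div] at hne; exact absurd hne (lt_irrefl _)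
    · exact h0
  have hP0 : (0:ℝ) < P.card := by
    rcases (Nat.cast_nonneg (α := ℝ) P.card).eq_or_lt with h0 | h0
    · rw [← h0, mul_zero, zero_div] at hne; exact absurd hne (lt_irrefl _)
    · exact h0
  have hr1 : 1 ≤ r := by
    obtain ⟨s, hs⟩ : P.Nonempty := card_pos.1 (by exact_mod_cast hP0)
    have := (hP s hs).2.2
    omega
  have hr0 : (1:ℝ) ≤ r := by exact_mod_cast hr1
  have hAH : (A.card : ℝ) ≤ H := by
    have := card_le_card hAz
    rw [Nat.card_Ico] at this
    exact_mod_cast (this.trans (by omega))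
  have hH0 : (0:ℝ) < H := by linarith
  set G := good k x P col A (θ * (P.card ^ (k + 1) / (r * x) ^ k)) with hG
  -- move the patterns to `[0, H)`
  have hstr : ∀ T ∈ G, (T.image (fun t => t - z)).image (· + z) = T ∧ T.image (fun t => t - z) ∈ (range H).powersetCard (k + 1) := by
    intro T hT
    rw [hG] at hT
    unfold good at hT
    rw [mem_filter, mem_powersetCard] at hT
    have hTz : ∀ t ∈ T, z ≤ t ∧ t < z + H := fun t ht => mem_Ico.1 (hAz (hT.1.1 ht))
    have e1 : (T.image (fun t => t - z)).image (· + z) = T := by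
      ext t
      rw [image_image, mem_image]
      constructor
      · rintro ⟨s, hs, rfl⟩
        simp only [Function.comp]
        have := (hTz s hs).1
        have e : s - z + z = s := by omega
        rw [e]; exact hs
      · intro ht
        refine ⟨t, ht, ?_⟩
        simp only [Function.comp]
        have := (hTz t ht).1
        omega
    refine ⟨e1, ?_⟩
    rw [mem_powersetCard]
    constructor
    · intro t ht
      obtain ⟨s, hs, rfl⟩ := mem_image.1 ht
      have := hTz s hs
      rw [mem_range]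
      omega
    · rw [← hT.1.2]
      apply card_image_of_injOn
      intro s hs t ht hst
      have := hTz s hs
      have := hTz t ht
      simp only at hst
      omega
  set G' := G.image (fun T => T.image (fun t => t - z)) with hG'
  have hinj : Set.InjOn (fun T : Finset ℕ => T.image (fun t => t - z)) (G : Set (Finset ℕ)) := by
    intro T hT T' hT' hTT
    simp only at hTT
    rw [← (hstr T hT).1, ← (hstr T' hT').1, hTT]
  have hGcard : G'.card = G.card := card_image_of_injOn hinj
  have hGsub : G' ⊆ (range H).powersetCard (k + 1) := by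
    intro T hT
    obtain ⟨T0, hT0, rfl⟩ := mem_image.1 hT
    exact (hstr T0 hT0).2
  have hGsum : ∑ T ∈ G', Uni.CT T = ∑ T ∈ G, 𝔖 T := by
    rw [hG', sum_image (fun T hT T' hT' hTT => hinj hT hT' hTT)]
    apply sum_congr rfl
    intro T hT
    rw [hCT]
    nth_rewrite 2 [← (hstr T hT).1]
    rw [Pool.Agent.TH891.SG.CT_add]
  set w := weight k x P r with hw
  have hw0 : 0 < w := by rw [hw]; unfold weight; positivity
  have hα2 := h2 P (fun p hp => ⟨(hP p hp).1, (hP p hp).2.1⟩)
  have hw2 : w ≤ 2 ^ (k + 1) := by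
    rw [hw]
    unfold weight
    rw [div_le_iff₀ (by positivity)]
    have i1 : ((P.card : ℝ) * Real.log x / x) ^ (k + 1) ≤ 2 ^ (k + 1) := pow_le_pow_left₀ (by positivity) hα2 _
    have i2 : (1:ℝ) ≤ (r:ℝ) ^ k := one_le_pow₀ hr0
    have i3 : (0:ℝ) < 2 ^ (k + 1) := by positivity
    nlinarith
  have hε1 : ε ≤ 1 := by
    have : ∏ i ∈ range k, (1 - (i + 1 : ℝ) / lam) ≤ 1 := by
      rw [← Uni.ph_eq k hklam]
      exact Pool.Agent.TH891.SG.ph_le_one k (by positivity)
    linarith
  set ρ : ℝ := (A.card / H) ^ (k + 1) with hρ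
  have hρ0 : 0 < ρ := by positivity
  have hρ1 : ρ ≤ 1 := by
    apply pow_le_one₀ (by positivity)
    rw [div_le_one hH0]; exact hAH
  set u : ℝ := ε * w * ρ with hu
  have hu0 : 0 < u := by positivity
  have hu2 : u ≤ 2 ^ (k + 1) := by
    calc u = ε * (w * ρ) := by rw [hu]; ring
      _ ≤ 1 * (2 ^ (k + 1) * 1) := by
          apply mul_le_mul hε1 _ (by positivity) (by norm_num)
          exact mul_le_mul hw2 hρ1 hρ0.le (by positivity)
      _ = _ := by ring
  have hfin := hcard H G' hGsub u hu0 (by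
    rw [hGsum]
    have e1 : (H : ℝ) ^ (k + 1) / (k + 1).factorial * u =
        B * (1 / ((k + 1).factorial * B) * (ε * w) * A.card ^ (k + 1)) := by
      rw [hu, hρ, div_pow]
      field_simp
    rw [e1]
    exact mul_le_mul_of_nonneg_left k1 hB.le)
  rw [hGcard] at hfin
  refine le_trans ?_ hfin
  apply mul_le_mul_of_nonneg_right _ (by positivity)
  rw [mul_assoc]
  apply mul_le_mul_of_nonneg_left _ hκ.le
  exact Pool.Agent.Q248.DP.exponent hn0 hu0.le hu2 (one_le_pow₀ (by norm_num)) hnδ

end Pool.Agent.Results.MP_485179_nt.ShiftsFromArbitrarySets
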